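import Mathlib
import Pool.Agent.H42.GEC

namespace Pool.Agent.Results.MP_0b7070_lc.Full

open Cardinal

/-- A graph with edge-colouring on the vertex type `V`, with colours in `C` and pseudocolour
`e`. -/
def IsGEC {V C : Type} (κ : V → V → C) (e : C) : Prop :=
  (∀ x y, κ x y = κ y x) ∧ ∀ x y, κ x y = e ↔ x = y

/-- The set of colours used on pairs of distinct vertices. -/
def palette {V C : Type} (κ : V → V → C) : Set C := {c | ∃ x y, x ≠ y ∧ κ x y = c}

/-- Every partial morphism, on an arbitrary subset, extends to an automorphism. -/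
def AbsHomogeneous {V C : Type} (κ : V → V → C) : Prop :=
  ∀ (A : Set V) (f : A → V), (∀ x y : A, κ (f x) (f y) = κ x y) →
    ∃ g : V ≃ V, (∀ x y, κ (g x) (g y) = κ x y) ∧ ∀ x : A, g x = f x

theorem result (V C : Type) (κ : V → V → C) (e : C) (h1 : IsGEC κ e) (h2 : AbsHomogeneous κ)
    (h3 : #(palette κ) ≤ ℵ₀) : #V ≤ ℵ₀ ∨ 2 ^ ℵ₀ ≤ #V := by
  refine (le_or_gt _ _).imp_right fun hV => ?_
  rw [two_power_aleph0]
  refine Pool.Agent.H42.GEC.main h1.1 h1.2 h2
    ((le_aleph0_iff_set_countable.1 h3).insert e) (fun x y => ?_) hV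
  by_cases c : x = y
  · exact Or.inl ((h1.2 x y).2 c)
  · exact Or.inr ⟨x, y, c, rfl⟩

/-- Consequently the sentence asked about in Q1 implies the Continuum Hypothesis. -/
example (hS : ∀ α β : Cardinal.{0}, ℵ₀ ≤ α → α < β → β < 2 ^ α →
    ∃ (V C : Type) (κ : V → V → C) (e : C), IsGEC κ e ∧ AbsHomogeneous κ ∧
      #(palette κ) = α ∧ #V = β) : (2 : Cardinal.{0}) ^ (ℵ₀ : Cardinal.{0}) = ℵ₁ := by
  have h1 : (ℵ₁ : Cardinal.{0}) ≤ 2 ^ (ℵ₀ : Cardinal.{0}) := by
    rw [two_power_aleph0]; exact aleph_one_le_continuum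
  refine (h1.eq_or_lt.resolve_right fun h2 => ?_).symm
  obtain ⟨V, C, κ, e, a1, a2, a3, a4⟩ := hS ℵ₀ ℵ₁ le_rfl aleph0_lt_aleph_one h2
  rcases result V C κ e a1 a2 a3.le with c | c
  · exact aleph0_lt_aleph_one.not_ge (a4 ▸ c)
  · exact h2.not_ge (a4 ▸ c)

end Pool.Agent.Results.MP_0b7070_lc.Full
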